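import Pool.Agent.H71.PC.Meas

/-!
# MP_d612eb_co, Q1: the polynomial compatibility conjecture, with `δ(d) = 1 / (65 d ^ 8)`
-/

set_option autoImplicit false

open MeasureTheory

namespace Pool.Agent.Results.MP_d612eb_co.EighthPower

/-- the value at `x`, a vector of signs, of the multilinear polynomial with coefficients `f S` -/
def value {N : ℕ} (f : Finset (Fin N) → ℝ) (x : Fin N → ℤˣ) : ℝ :=
  ∑ S, f S * ∏ i ∈ S, ((x i : ℤ) : ℝ)

/-- the influence of the coordinate `i` on the polynomial with coefficients `f S` -/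
def influence {N : ℕ} (i : Fin N) (f : Finset (Fin N) → ℝ) : ℝ :=
  ∑ S with i ∈ S, f S ^ 2

/-- `F` is a Borel probability measure on polynomials (coefficient vectors); every polynomial in its
support has degree at most `d` and mean square `1` on the cube; the expected influence of every
coordinate is at most `δ` -/
structure Admissible (d : ℕ) (δ : ℝ) {N : ℕ} (F : Measure (Finset (Fin N) → ℝ)) : Prop where
  prob : F Set.univ = 1
  degree : ∀ f ∈ F.support, ∀ S, f S ≠ 0 → S.card ≤ d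
  norm : ∀ f ∈ F.support, (∑ x, value f x ^ 2) / 2 ^ N = 1
  infl : ∀ i, ∫ f, influence i f ∂F ≤ δ

/-- some polynomials in the supports have a nonzero product at some point of the cube -/
def Compatible {N : ℕ} (F G : Measure (Finset (Fin N) → ℝ)) : Prop :=
  ∃ f ∈ F.support, ∃ g ∈ G.support, ∃ x, value f x * value g x ≠ 0

/-- signs and Booleans -/
def sgn : Bool ≃ ℤˣ where
  toFun b := if b then 1 else -1
  invFun u := decide (u = 1)
  left_inv b := by cases b <;> decide
  right_inv u := by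
    rcases Int.units_eq_one_or u with rfl | rfl <;> decide

theorem value_sgn {N : ℕ} (f : Finset (Fin N) → ℝ) (x : Fin N → Bool) :
    value f (fun i => sgn (x i)) = H71.PC.ev f x := by
  unfold value H71.PC.ev H71.PC.chi
  refine Finset.sum_congr rfl fun S _ => ?_
  congr 1
  refine Finset.prod_congr rfl fun i _ => ?_
  show (((sgn (x i) : ℤˣ) : ℤ) : ℝ) = H71.PC.sg (x i)
  cases x i <;> simp [sgn, H71.PC.sg]

theorem norm_eq {N : ℕ} (f : Finset (Fin N) → ℝ) :
    (∑ x, value f x ^ 2) / 2 ^ N = ∑ S, f S ^ 2 := by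
  rw [← H71.PC.parseval f]
  unfold H71.PC.avg
  rw [Fintype.card_fin]
  congr 1
  refine (Fintype.sum_equiv (Equiv.piCongrRight fun _ => sgn) _ _ fun x => ?_).symm
  rw [← value_sgn]
  rfl

theorem result (d N : ℕ) (hd : 1 ≤ d) (F G : Measure (Finset (Fin N) → ℝ))
    (hF : Admissible d (1 / (65 * (d : ℝ) ^ 8)) F) (hG : Admissible d (1 / (65 * (d : ℝ) ^ 8)) G) :
    Compatible F G := by
  have : IsProbabilityMeasure F := ⟨hF.prob⟩
  have : IsProbabilityMeasure G := ⟨hG.prob⟩
  by_contra hcon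
  have hd1 : (1 : ℝ) ≤ d := by exact_mod_cast hd
  have hd0 : (0 : ℝ) < d := by linarith
  have hθ : (0 : ℝ) < 20 / (161 * (d : ℝ) ^ 4) := by positivity
  have hθ2 : 1 / (65 * (d : ℝ) ^ 8) ≤ (20 / (161 * (d : ℝ) ^ 4)) ^ 2 := by
    rw [div_pow, div_le_div_iff₀ (by positivity) (by positivity)]
    have h8 : (0 : ℝ) < (d : ℝ) ^ 8 := by positivity
    nlinarith
  have hmain := H71.PC.main_meas d d F G
    (fun f hf => by rw [← norm_eq]; exact hF.norm f hf)
    (fun f hf => by rw [← norm_eq]; exact hG.norm f hf)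
    hF.degree hG.degree _ _ hθ hθ
    (fun i => (hF.infl i).trans hθ2) (fun i => (hG.infl i).trans hθ2)
    (fun f hf g hg x => by
      by_contra hne
      apply hcon
      refine ⟨f, hf, g, hg, fun i => sgn (x i), ?_⟩
      rw [value_sgn, value_sgn]
      exact hne)
  have hD : (((d ^ 2 * (d * (d + 1)) : ℕ)) : ℝ) ≤ 2 * (d : ℝ) ^ 4 := by
    push_cast
    have h3 : (0 : ℝ) ≤ (d : ℝ) ^ 3 := by positivity
    nlinarith [mul_le_mul_of_nonneg_left hd1 h3]
  have h5 : 2 * (((d ^ 2 * (d * (d + 1)) : ℕ)) : ℝ) *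
      (20 / (161 * (d : ℝ) ^ 4) + 20 / (161 * (d : ℝ) ^ 4)) ≤ 160 / 161 := by
    calc 2 * (((d ^ 2 * (d * (d + 1)) : ℕ)) : ℝ) *
        (20 / (161 * (d : ℝ) ^ 4) + 20 / (161 * (d : ℝ) ^ 4))
        ≤ 2 * (2 * (d : ℝ) ^ 4) * (20 / (161 * (d : ℝ) ^ 4) + 20 / (161 * (d : ℝ) ^ 4)) :=
          mul_le_mul_of_nonneg_right (by linarith) (by positivity)
      _ = 160 / 161 := by
          field_simp
          norm_num
  linarith

end Pool.Agent.Results.MP_d612eb_co.EighthPower
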